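import Mathlib

namespace Pool.Agent.Results.MP_4dddeb_co.Counter

open Finset SimpleGraph Filter Topology

/-- `H` is a minor of `G` (branch sets) -/
def IsMinor {W V : Type} (H : SimpleGraph W) (G : SimpleGraph V) : Prop :=
  ∃ B : W → Set V, (∀ w, (G.induce (B w)).Connected) ∧
    (∀ w w', w ≠ w' → Disjoint (B w) (B w')) ∧
    ∀ w w', H.Adj w w' → ∃ u ∈ B w, ∃ v ∈ B w', G.Adj u v

def Free (F : Set (Σ k : ℕ, SimpleGraph (Fin k))) {V : Type} (G : SimpleGraph V) : Prop :=
  ∀ H ∈ F, ¬ IsMinor H.2 G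

def EdgeMax (F : Set (Σ k : ℕ, SimpleGraph (Fin k))) {V : Type} (G : SimpleGraph V) : Prop :=
  Free F G ∧ ∀ u v, u ≠ v → ¬ G.Adj u v → ¬ Free F (G ⊔ edge u v)

def E (F : Set (Σ k : ℕ, SimpleGraph (Fin k))) (n : ℕ) : Set ℕ :=
  {e | ∃ G : SimpleGraph (Fin n), EdgeMax F G ∧ G.edgeSet.ncard = e}

noncomputable def gap (F : Set (Σ k : ℕ, SimpleGraph (Fin k))) (n : ℕ) : ℕ :=
  sSup (E F n) - sInf (E F n)

def F4 : Set (Σ k : ℕ, SimpleGraph (Fin k)) := {H | 4 ≤ H.1 ∧ H.2.Connected}

variable {V α : Type} [Fintype V]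

lemma free_iff (G : SimpleGraph V) : Free F4 G ↔ ∀ v, {w | G.Reachable v w}.ncard ≤ 3 := by
  constructor
  · intro h v
    by_contra hlt
    have hs : {w | G.Reachable v w} = (G.connectedComponentMk v).supp := by
      ext w
      simp [reachable_comm]
    rw [hs] at hlt
    let C := G.connectedComponentMk v
    let e : Fin (Nat.card C.supp) ≃ C.supp := (Finite.equivFin _).symm
    refine h ⟨_, C.toSimpleGraph.comap e⟩ ⟨not_le.mp hlt, ?_⟩
      ⟨fun w => {(e w : V)}, fun w => ?_, fun w w' hw => ?_, fun w w' hw => ?_⟩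
    · exact (Iso.comap e C.toSimpleGraph).connected_iff.mpr C.connected_toSimpleGraph
    · exact Connected.of_subsingleton
    · simpa [Subtype.val_inj] using hw
    · exact ⟨_, rfl, _, rfl, hw⟩
  · rintro h ⟨k, H⟩ ⟨hk, hc⟩ ⟨B, h1, h2, h3⟩
    have hr : ∀ w, ∀ a ∈ B w, ∀ b ∈ B w, G.Reachable a b := fun w a ha b hb =>
      ((h1 w).preconnected ⟨a, ha⟩ ⟨b, hb⟩).map (Embedding.induce (B w)).toHom
    choose r hr' using fun w => (h1 w).nonempty.elim fun x => (⟨x.1, x.2⟩ : ∃ a, a ∈ B w)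
    have key : ∀ w w', H.Reachable w w' → G.Reachable (r w) (r w') := by
      rintro w w' ⟨p⟩
      induction p with
      | nil => rfl
      | cons a _ ih =>
        obtain ⟨u, hu, v, hv, huv⟩ := h3 _ _ a
        exact ((hr _ _ (hr' _) _ hu).trans huv.reachable).trans ((hr _ _ hv _ (hr' _)).trans ih)
    have := Set.ncard_le_ncard_of_injOn (s := Set.univ) (t := {w | G.Reachable (r ⟨0, by omega⟩) w})
      r (fun w _ => key _ _ (hc.preconnected _ _)) (fun a _ b _ e => by
        by_contra hne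
        exact Set.disjoint_left.mp (h2 a b hne) (hr' a) (e ▸ hr' b))
    have h5 := h (r ⟨0, by omega⟩)
    simp only at hk
    simp only [Set.ncard_univ, Nat.card_eq_fintype_card, Fintype.card_fin] at this
    omega

omit [Fintype V] in
lemma reach_sup [DecidableEq V] (G : SimpleGraph V) (u v a b : V)
    (h : (G ⊔ edge u v).Reachable a b) : G.Reachable a b ∨
      ((G.Reachable u a ∨ G.Reachable v a) ∧ (G.Reachable u b ∨ G.Reachable v b)) := by
  obtain ⟨p⟩ := h
  induction p with
  | nil => exact Or.inl (Reachable.refl _)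
  | @cons x y z a _ ih =>
    rcases a with a | a
    · rcases ih with ih | ⟨ih | ih, ih2⟩
      · exact Or.inl (a.reachable.trans ih)
      · exact Or.inr ⟨Or.inl (ih.trans a.symm.reachable), ih2⟩
      · exact Or.inr ⟨Or.inr (ih.trans a.symm.reachable), ih2⟩
    · rw [edge_adj] at a
      rcases a.1 with ⟨rfl, rfl⟩ | ⟨rfl, rfl⟩ <;> rcases ih with ih | ih
      · exact Or.inr ⟨Or.inl (Reachable.refl _), Or.inr ih⟩
      · exact Or.inr ⟨Or.inl (Reachable.refl _), ih.2⟩
      · exact Or.inr ⟨Or.inr (Reachable.refl _), Or.inl ih⟩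
      · exact Or.inr ⟨Or.inr (Reachable.refl _), ih.2⟩

def K (c : V → α) : SimpleGraph V where
  Adj u v := u ≠ v ∧ c u = c v
  symm := ⟨fun _ _ h => ⟨h.1.symm, h.2.symm⟩⟩
  loopless := ⟨fun _ h => h.1 rfl⟩

noncomputable def fib (c : V → α) (v : V) : ℕ := {w | c v = c w}.ncard

omit [Fintype V] in
lemma K_reach (c : V → α) (u v : V) : (K c).Reachable u v ↔ c u = c v := by
  constructor
  · rintro ⟨p⟩
    induction p with
    | nil => rfl
    | cons a _ ih => exact a.2.trans ih
  · intro h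
    by_cases e : u = v
    · rw [e]
    · exact Adj.reachable ⟨e, h⟩

lemma max_K (c : V → α) : EdgeMax F4 (K c) ↔
    (∀ v, fib c v ≤ 3) ∧ ∀ u v, c u ≠ c v → 4 ≤ fib c u + fib c v := by
  classical
  have hf : Free F4 (K c) ↔ ∀ v, fib c v ≤ 3 := by simp only [free_iff, K_reach, fib]
  rw [EdgeMax, hf]
  refine and_congr_right fun h3 => ⟨fun h u v huv => ?_, fun h u v huv hn hfr => ?_⟩
  · by_contra hlt
    refine h u v (fun e => huv (by rw [e])) (fun a => huv a.2) ((free_iff _).mpr fun x => ?_)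
    by_cases hx : c u = c x ∨ c v = c x
    · refine le_trans (Set.ncard_le_ncard (t := {w | c u = c w} ∪ {w | c v = c w}) fun y hy => ?_)
        (le_trans (Set.ncard_union_le _ _) (by unfold fib at hlt; omega))
      have := reach_sup _ u v x y hy
      simp only [K_reach] at this
      rcases this with h1 | h1
      · rw [h1] at hx
        exact hx
      · exact h1.2
    · refine le_trans (Set.ncard_le_ncard fun y hy => ?_) (h3 x)
      have := reach_sup _ u v x y hy
      simp only [K_reach] at this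
      exact this.resolve_right fun h1 => hx h1.1
  · have hc : c u ≠ c v := fun e => hn ⟨huv, e⟩
    have h4 := h u v hc
    have h5 := (free_iff _).mp hfr u
    have h6 : {w | c u = c w} ∪ {w | c v = c w} ⊆ {w | (K c ⊔ edge u v).Reachable u w} := by
      rintro y (hy | hy)
      · exact ((K_reach c u y).mpr hy).mono le_sup_left
      · exact (Adj.reachable (Or.inr (by simp [edge_adj, huv]))).trans
          (((K_reach c v y).mpr hy).mono le_sup_left)
    have h7 := Set.ncard_le_ncard h6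
    rw [Set.ncard_union_eq (Set.disjoint_left.mpr fun y h1 h2 => hc (h1.trans h2.symm))] at h7
    unfold fib at h4
    omega

lemma eq_K (G : SimpleGraph V) (h : EdgeMax F4 G) : G = K G.connectedComponentMk := by
  classical
  ext u v
  refine ⟨fun a => ⟨a.ne, ConnectedComponent.eq.mpr a.reachable⟩, fun a => ?_⟩
  by_contra hn
  refine h.2 u v a.1 hn ((free_iff _).mpr fun x => le_trans (Set.ncard_le_ncard fun y hy => ?_)
    ((free_iff _).mp h.1 x))
  have r := ConnectedComponent.eq.mp a.2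
  rcases reach_sup G u v x y hy with h1 | ⟨h1 | h1, h2 | h2⟩
  · exact h1
  · exact h1.symm.trans h2
  · exact h1.symm.trans (r.trans h2)
  · exact h1.symm.trans (r.symm.trans h2)
  · exact h1.symm.trans h2

lemma edges_K (c : V → α) : 2 * (K c).edgeSet.ncard + Fintype.card V = ∑ v, fib c v := by
  classical
  rw [← coe_edgeFinset, Set.ncard_coe_finset, ← sum_degrees_eq_twice_card_edges, ← card_univ,
    card_eq_sum_ones, ← sum_add_distrib]
  refine sum_congr rfl fun v _ => ?_
  rw [← card_neighborFinset_eq_degree, ← card_insert_of_notMem (notMem_neighborFinset_self _ v),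
    fib, ← Set.ncard_coe_finset]
  congr 1
  ext w
  by_cases e : w = v
  · simp [e]
  · simp [e, K, Ne.symm e]

lemma dvd_cnt (c : V → α) (j : ℕ) : j ∣ (univ.filter fun v => fib c v = j).card := by
  classical
  rw [card_eq_sum_card_image c]
  refine dvd_sum fun b hb => ?_
  obtain ⟨v, hv, rfl⟩ := mem_image.mp hb
  have hv := (mem_filter.mp hv).2
  rw [← hv, fib, ← Set.ncard_coe_finset]
  apply dvd_of_eq
  congr 1
  ext w
  simp only [Set.mem_ofPred_eq, coe_filter, mem_filter, mem_univ, true_and]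
  exact ⟨fun h => ⟨by rw [fib, h], h.symm⟩, fun h => h.2.symm⟩

lemma E_sub (n e : ℕ) (he : e ∈ E F4 n) : e ≤ n ∧ (6 ∣ n → 3 ∣ e ∧ n ≤ 2 * e) := by
  classical
  obtain ⟨G, hG, rfl⟩ := he
  have hK := eq_K G hG
  rw [hK] at hG ⊢
  clear hK
  generalize G.connectedComponentMk = c at *
  obtain ⟨h1, h2⟩ := (max_K c).mp hG
  have h0 : ∀ v, 1 ≤ fib c v := fun v => (Set.ncard_pos).mpr ⟨v, rfl⟩
  have e1 := edges_K c
  have e2 : ∑ v, fib c v = (univ.filter fun v => fib c v = 1).card +
      2 * (univ.filter fun v => fib c v = 2).card + 3 * (univ.filter fun v => fib c v = 3).card := by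
    simp only [card_filter, mul_sum, ← sum_add_distrib]
    refine sum_congr rfl fun v _ => ?_
    have := h0 v
    have := h1 v
    split_ifs <;> omega
  have e3 : n = (univ.filter fun v => fib c v = 1).card +
      (univ.filter fun v => fib c v = 2).card + (univ.filter fun v => fib c v = 3).card := by
    simp only [card_filter, ← sum_add_distrib]
    refine (show n = ∑ _v : Fin n, 1 by simp).trans (sum_congr rfl fun v _ => ?_)
    have := h0 v
    have := h1 v
    split_ifs <;> omega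
  have d2 := dvd_cnt c 2
  have d3 := dvd_cnt c 3
  rw [Fintype.card_fin] at e1
  refine ⟨by omega, fun h6 => ?_⟩
  by_cases h : ∃ v, fib c v = 1
  · obtain ⟨v, hv⟩ := h
    have k : ∀ w, w ≠ v → fib c w = 3 := by
      intro w hw
      have : c w ≠ c v := by
        intro e
        obtain ⟨a, ha⟩ := Set.ncard_eq_one.mp hv
        have p1 : v ∈ {w | c v = c w} := rfl
        have p2 : w ∈ {w | c v = c w} := e.symm
        rw [ha] at p1 p2
        exact hw (p2.trans p1.symm)
      have := h2 w v this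
      have := h1 w
      omega
    have : (univ.filter fun w => fib c w = 3) = univ.erase v := by
      ext w
      by_cases e : w = v
      · simp [e, hv]
      · simp [e, k w e]
    rw [this, card_erase_of_mem (mem_univ _), card_univ, Fintype.card_fin] at d3
    have := v.pos
    omega
  · have : (univ.filter fun v => fib c v = 1).card = 0 := by simpa using h
    omega

lemma fib_Ico {n : ℕ} (c : Fin n → ℕ) (v : Fin n) (a b : ℕ) (hb : b ≤ n)
    (h : ∀ w : Fin n, c v = c w ↔ a ≤ w ∧ w < b) : fib c v = b - a := by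
  rw [fib, ← Set.ncard_image_of_injective _ Fin.val_injective, ← Nat.card_Ico,
    ← Set.ncard_coe_finset]
  congr 1
  ext x
  simp only [h, Set.mem_image, Set.mem_ofPred_eq, coe_Ico, Set.mem_Ico]
  exact ⟨by rintro ⟨w, hw, rfl⟩; exact hw, fun hx => ⟨⟨x, by omega⟩, hx, rfl⟩⟩

lemma cnt_le {n : ℕ} (a : ℕ) : ∑ v : Fin n, (if a ≤ (v : ℕ) then 1 else 0) = n - a := by
  rw [Fin.sum_univ_eq_sum_range (fun v => if a ≤ v then 1 else 0), ← card_filter, ← Nat.card_Ico]
  congr 1
  ext x
  simp [and_comm]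

lemma gap_ge (n : ℕ) (hn : 2 ≤ n) : n ≤ 2 * gap F4 n + 7 := by
  have hb : BddAbove (E F4 n) := ⟨n, fun e he => (E_sub n e he).1⟩
  let c1 : Fin n → ℕ := fun v => min (v / 2) (n / 2 - 1)
  let c2 : Fin n → ℕ := fun v => v / 3
  have f1 : ∀ v, fib c1 v = if 2 * (n / 2 - 1) ≤ (v : ℕ) then n - 2 * (n / 2 - 1) else 2 := by
    intro v
    split_ifs with h
    · exact fib_Ico c1 v _ _ le_rfl fun w => by have := w.2; simp only [c1]; omega
    · rw [fib_Ico c1 v (2 * (v / 2)) (2 * (v / 2) + 2) (by omega) fun w => by simp only [c1]; omega]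
      omega
  have f2 : ∀ v, fib c2 v = if 3 * (n / 3) ≤ (v : ℕ) then n - 3 * (n / 3) else 3 := by
    intro v
    have := v.2
    split_ifs with h
    · exact fib_Ico c2 v _ _ le_rfl fun w => by have := w.2; simp only [c2]; omega
    · rw [fib_Ico c2 v (3 * (v / 3)) (3 * (v / 3) + 3) (by omega) fun w => by simp only [c2]; omega]
      omega
  have m1 : EdgeMax F4 (K c1) := (max_K c1).mpr ⟨fun v => by rw [f1]; split_ifs <;> omega,
    fun u v _ => by rw [f1, f1]; split_ifs <;> omega⟩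
  have m2 : EdgeMax F4 (K c2) := (max_K c2).mpr ⟨fun v => by rw [f2]; split_ifs <;> omega,
    fun u v h => by
      have := u.2
      have := v.2
      simp only [c2] at h
      rw [f2, f2]
      split_ifs <;> omega⟩
  have g1 := Nat.sInf_le (s := E F4 n) ⟨_, m1, rfl⟩
  have g2 := le_csSup hb ⟨_, m2, rfl⟩
  have e1 := edges_K c1
  have e2 := edges_K c2
  have s1 : ∑ v, fib c1 v ≤ ∑ v : Fin n, (2 + if 2 * (n / 2 - 1) ≤ (v : ℕ) then 1 else 0) :=
    sum_le_sum fun v _ => by rw [f1]; split_ifs <;> omega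
  have s2 : ∑ _v : Fin n, 3 ≤
      ∑ v : Fin n, (fib c2 v + 2 * if 3 * (n / 3) ≤ (v : ℕ) then 1 else 0) :=
    sum_le_sum fun v _ => by have := v.2; rw [f2]; split_ifs <;> omega
  rw [sum_add_distrib, cnt_le] at s1
  rw [sum_add_distrib, ← mul_sum, cnt_le] at s2
  simp only [sum_const, card_univ, Fintype.card_fin, smul_eq_mul] at s1 s2 e1 e2
  unfold gap
  omega

lemma card_E (k : ℕ) : (E F4 (6 * k)).ncard ≤ k + 1 := by
  have : E F4 (6 * k) ⊆ (fun j => 3 * j) '' (Finset.Icc k (2 * k) : Set ℕ) := by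
    intro e he
    obtain ⟨h1, h2⟩ := E_sub _ e he
    obtain ⟨⟨j, rfl⟩, h3⟩ := h2 (Dvd.intro _ rfl)
    exact ⟨j, by simp; omega, rfl⟩
  refine le_trans (Set.ncard_le_ncard this ((Finset.finite_toSet _).image _))
    (le_trans (Set.ncard_image_le (Finset.finite_toSet _)) ?_)
  rw [Set.ncard_coe_finset, Nat.card_Icc]
  omega

theorem result : ∃ F : Set (Σ k : ℕ, SimpleGraph (Fin k)), F.Nonempty ∧ (∀ H ∈ F, H.2 ≠ ⊥) ∧
    (∀ C : ℤ, ∃ n, 1 ≤ n ∧ C < (gap F n : ℤ) - (E F n).ncard) ∧
    (∀ᶠ n : ℕ in atTop, (1 / 4 : ℝ) ≤ (gap F n : ℝ) / n) ∧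
    ¬ Tendsto (fun n => ((E F n).ncard : ℝ) / gap F n) atTop (𝓝 1) := by
  refine ⟨F4, ⟨⟨4, ⊤⟩, le_rfl, connected_top⟩, ?_, fun C => ?_, ?_, fun h => ?_⟩
  · rintro ⟨k, H⟩ ⟨hk, hc⟩ h
    simp only at h hk hc
    rw [h] at hc
    have := reachable_bot.mp (hc.preconnected ⟨0, by omega⟩ ⟨1, by omega⟩)
    simp at this
  · have := gap_ge (6 * (C.toNat + 6)) (by omega)
    have := card_E (C.toNat + 6)
    exact ⟨6 * (C.toNat + 6), by omega, by omega⟩
  · filter_upwards [eventually_ge_atTop 14] with n hn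
    have h1 : n ≤ 4 * gap F4 n := by have := gap_ge n (by omega); omega
    have h2 : (n : ℝ) ≤ 4 * gap F4 n := by exact_mod_cast h1
    rw [le_div_iff₀ (by exact_mod_cast (by omega : 0 < n))]
    linarith
  · obtain ⟨N, hN⟩ := eventually_atTop.mp (h.eventually (lt_mem_nhds (by norm_num : (1 / 2 : ℝ) < 1)))
    have h1 := hN (6 * (N + 6)) (by omega)
    have h2 := gap_ge (6 * (N + 6)) (by omega)
    have h3 := card_E (N + 6)
    have h4 : (2 : ℝ) * (E F4 (6 * (N + 6))).ncard ≤ gap F4 (6 * (N + 6)) := by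
      exact_mod_cast (by omega : 2 * (E F4 (6 * (N + 6))).ncard ≤ gap F4 (6 * (N + 6)))
    rw [lt_div_iff₀ (by exact_mod_cast (by omega : 0 < gap F4 (6 * (N + 6))))] at h1
    linarith

end Pool.Agent.Results.MP_4dddeb_co.Counter
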